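import Mathlib

/-!
Definitions used in the final statement for MP_07117b_nt (arboreal Galois groups).
-/

namespace Pool.Agent.Arb

open Polynomial

open Classical in
/-- The self-map of the projective line `P^1(F) = F ∪ {∞}` given by `x ↦ p(x)/q(x)`.
For coprime `p, q` with `max (deg p) (deg q) = d` this is the rational map of degree `d`;
its value at `∞` is the quotient of the coefficients of degree `d`. -/
noncomputable def ratMap {F : Type*} [Field F] (p q : F[X]) : OnePoint F → OnePoint F := fun x =>
  OnePoint.elim x
    (if q.coeff (max p.natDegree q.natDegree) = 0 then OnePoint.infty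
      else ((p.coeff (max p.natDegree q.natDegree) / q.coeff (max p.natDegree q.natDegree) : F) :
        OnePoint F))
    (fun y => if q.eval y = 0 then OnePoint.infty else ((p.eval y / q.eval y : F) : OnePoint F))

/-- `f^{-n}(α)`: the points `β` of the projective line over an algebraic closure of `K` with
`f^n(β) = α`, for the rational map `f = p/q`. -/
def preimages {K : Type*} [Field K] (p q : K[X]) (α : OnePoint K) (n : ℕ) :
    Set (OnePoint (AlgebraicClosure K)) :=
  {β | (ratMap (p.map (algebraMap K (AlgebraicClosure K)))
    (q.map (algebraMap K (AlgebraicClosure K))))^[n] β =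
      OnePoint.map (algebraMap K (AlgebraicClosure K)) α}

/-- The field `K_n = K(f^{-n}(α))`, generated by the finite coordinates of the points of
`f^{-n}(α)`. -/
noncomputable def levelField {K : Type*} [Field K] (p q : K[X]) (α : OnePoint K) (n : ℕ) :
    IntermediateField K (AlgebraicClosure K) :=
  IntermediateField.adjoin K {x | ((x : AlgebraicClosure K) : OnePoint (AlgebraicClosure K)) ∈
    preimages p q α n}

/-- The ratio `log [K_n : K] / log A_n`, where `A_n = (d!)^(1 + d + ... + d^(n-1))` is the order of
the automorphism group of the complete `d`-ary rooted tree with `n` levels, and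
`d = max (deg p) (deg q)`. -/
noncomputable def ratio {K : Type*} [Field K] (p q : K[X]) (α : OnePoint K) (n : ℕ) : ℝ :=
  Real.log (Module.finrank K (levelField p q α n)) /
    Real.log (((Nat.factorial (max p.natDegree q.natDegree)) ^
      (∑ i ∈ Finset.range n, (max p.natDegree q.natDegree) ^ i) : ℕ) : ℝ)

/-- Lower Minkowski dimension of the arboreal Galois group. -/
noncomputable def lowerDim {K : Type*} [Field K] (p q : K[X]) (α : OnePoint K) : ℝ :=
  Filter.liminf (fun n => ratio p q α n) Filter.atTop

/-- Upper Minkowski dimension of the arboreal Galois group. -/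
noncomputable def upperDim {K : Type*} [Field K] (p q : K[X]) (α : OnePoint K) : ℝ :=
  Filter.limsup (fun n => ratio p q α n) Filter.atTop

/-- The final statement: there are a number field `K`, a rational map `f = p/q` of degree at least
`2` over `K` and a point `α` of `P^1(K)` such that the ratios are bounded and the
lower dimension is strictly smaller than the upper dimension. -/
def Final : Prop :=
  ∃ (K : Type) (_ : Field K) (_ : NumberField K) (p q : K[X]) (α : OnePoint K),
    IsCoprime p q ∧ 2 ≤ max p.natDegree q.natDegree ∧
    (∃ c : ℝ, ∀ n, 0 ≤ ratio p q α n ∧ ratio p q α n ≤ c) ∧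
    lowerDim p q α < upperDim p q α

end Pool.Agent.Arb
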