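import Pool.Agent.Lib.MP_07117b_nt_h64.Defs
import Pool.Agent.Lib.MP_07117b_nt_h64.Stmt

/-!
The rational map of degree 52.
-/

namespace Pool.Agent.Arb.Cst

open Polynomial

variable {K : Type*} [Field K] (c : Cst K)

/-- numerator of `R1` -/
noncomputable def pA (K : Type*) [Field K] : K[X] := Polynomial.X * (Polynomial.X + C 2)

/-- denominator of `R1` -/
noncomputable def pB (K : Type*) [Field K] : K[X] := C 2 * Polynomial.X + 1

/-- numerator of `f` -/
noncomputable def pp : K[X] :=
  - C c.ω * pB K ^ 13 * (C c.a * pA K ^ 13 + C c.ω * pB K ^ 13)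

/-- denominator of `f` -/
noncomputable def qq : K[X] :=
  pA K ^ 13 * (pA K ^ 13 + C (c.a * c.ω) * pB K ^ 13)

end Pool.Agent.Arb.Cst
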