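import Pool.Agent.Lib.MP_07117b_nt_h64.Defs

/-!
Definitions for the 3-adic local part.
-/

namespace Pool.Agent.Arb

/-- Local data at `3`: a subgroup `B` of field automorphisms of `Ω`, thought of as the absolute
Galois group of the completion `F1` (`e = 2`, `f = 3`) of the base field. -/
structure Loc3 {Ω : Type*} [NormedField Ω] (c : Cst Ω) (B : Subgroup (Ω ≃+* Ω)) : Prop where
  ultra : ∀ x y : Ω, ‖x + y‖ ≤ max ‖x‖ ‖y‖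
  isom : ∀ b ∈ B, ∀ x : Ω, ‖b x‖ = ‖x‖
  fa : ∀ b ∈ B, b c.a = c.a
  fω : ∀ b ∈ B, b c.ω = c.ω
  fζ : ∀ b ∈ B, b c.ζ = c.ζ
  three : ‖(3 : Ω)‖ = 1 / 3
  ha1 : ‖c.a - 1‖ < 1
  val : ∀ y : Ω, y ≠ 0 → (∀ b ∈ B, b y = y) → ∃ n : ℤ, ‖y‖ ^ 2 = (3 : ℝ) ^ n
  res : ∀ y : Ω, (∀ b ∈ B, b y = y) → ‖y‖ ≤ 1 → ‖y ^ 27 - y‖ < 1

/-- `H`-type nodes -/
def HT {Ω : Type*} [NormedField Ω] (B : Subgroup (Ω ≃+* Ω)) (u : Ω) : Prop :=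
  (∀ b ∈ B, b u = u) ∧ ‖u + 1‖ < 1

/-- `G`-type nodes -/
def GT {Ω : Type*} [NormedField Ω] (B : Subgroup (Ω ≃+* Ω)) (z : Ω) : Prop :=
  (∀ b ∈ B, b z = z) ∧ ‖z‖ = 1 ∧ ‖z - 1‖ = 1 ∧ ‖z + 1‖ = 1

end Pool.Agent.Arb
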