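import Mathlib

/-!
Shared definitions for the disproof of MP_07117b_nt. Group part: torsor fibrations.
Algebra part: the maps `P`, `X`, the Klein four group, the node sets.
-/

namespace Pool.Agent.Arb

/-! ### Group part -/

/-- The Klein four group, written additively. `(1,0)` is `s0`, `(0,1)` is `s1`, `(1,1)` is `s2`. -/
abbrev V4 : Type := ZMod 2 × ZMod 2

/-- `p : X → Y` is a `G`-equivariant fibration whose fibres are torsors under the additive group
`A`, the action of `A` commuting with that of `G`. -/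
structure Fib (G A X Y : Type*) [Group G] [AddCommGroup A] [MulAction G X] [MulAction G Y]
    [AddAction A X] (p : X → Y) : Prop where
  surj : Function.Surjective p
  equiv : ∀ (g : G) (x : X), p (g • x) = g • p x
  comm : ∀ (g : G) (c : A) (x : X), g • (c +ᵥ x) = c +ᵥ (g • x)
  fib : ∀ (c : A) (x : X), p (c +ᵥ x) = p x
  trans : ∀ x x' : X, p x = p x' → ∃ c : A, x' = c +ᵥ x
  free : ∀ (c : A) (x : X), c +ᵥ x = x → c = 0

section Gam
variable {G A X Y : Type*} [Group G] [AddCommGroup A] [MulAction G X] [MulAction G Y]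
    [AddAction A X]

/-- `Gam G p`: the functions `γ : Y → A` such that some `g : G` acts on `X` by translating each
fibre `p⁻¹ y` by `γ y`. -/
def Gam (G : Type*) {A X Y : Type*} [Group G] [AddCommGroup A] [MulAction G X]
    [AddAction A X] (p : X → Y) : Set (Y → A) :=
  {γ | ∃ g : G, ∀ x : X, g • x = γ (p x) +ᵥ x}

end Gam

/-- Transitivity. -/
def Tr (G M : Type*) [Group G] [MulAction G M] : Prop := ∀ u u' : M, ∃ g : G, g • u = u'

section Props
variable (G : Type*) {L M M' : Type*} [Group G] [MulAction G L] [MulAction G M] [MulAction G M']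
  [AddAction (ZMod 13) L] [AddAction V4 M']

/-- A: the rotation at each node is nontrivial. -/
def PropA (p : L → M) : Prop := ∀ u : M, ∃ γ ∈ Gam G (A := ZMod 13) p, γ u ≠ 0

/-- B: pairwise independence of rotations. -/
def PropB (p : L → M) : Prop :=
  ∀ u u' : M, u ≠ u' → ∃ γ ∈ Gam G (A := ZMod 13) p, γ u = 0 ∧ γ u' ≠ 0

/-- C: all pairs of equal labels in one block. -/
def PropC (p : L → M) (q : M' → L) : Prop :=
  ∀ (z z' : L), p z = p z' → z ≠ z' → ∀ s : V4, ∃ δ ∈ Gam G (A := V4) q,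
    δ z = s ∧ δ z' = s ∧ ∀ y, y ≠ z → y ≠ z' → δ y = 0

/-- C1. -/
def PropC1 (p : L → M) (q : M' → L) : Prop :=
  ∀ (z : L) (s : V4), ∃ δ ∈ Gam G (A := V4) q, δ z = s ∧ ∀ z', p z' ≠ p z → δ z' = 0

/-- C2. -/
def PropC2 (p : L → M) (q : M' → L) : Prop :=
  ∀ (z z' : L), p z = p z' → z ≠ z' → ∃ δ ∈ Gam G (A := V4) q, δ z = 0 ∧ δ z' ≠ 0

/-- The hypothesis `P_j`. -/
def HypP (p : L → M) (q : M' → L) : Prop :=
  ∀ s : V4, (s = (1, 0) ∨ s = (0, 1)) → ∃ (z0 : L) (b : G),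
    (∀ z, p z = p z0 → b • z = z) ∧ (∀ w, q w = z0 → b • w = s +ᵥ w) ∧
      (∀ w, p (q w) = p z0 → q w ≠ z0 → b • w = w)

end Props

/-- The hypothesis `E_j` (levels `j-1`, `j`). -/
def HypE (G : Type*) {L0 M0 L M : Type*} [Group G] [MulAction G L0] [MulAction G L] [MulAction G M]
    [AddAction (ZMod 13) L] (p0 : L0 → M0) (q : M → L0) (p : L → M) : Prop :=
  ∃ (zs : L0) (uO : M) (c : G), q uO = zs ∧ (∀ z, p0 z = p0 zs → c • z = z) ∧
    (∀ u, q u = zs → c • u = u) ∧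
    (∃ ρ : ZMod 13, ρ ≠ 0 ∧ ∀ x : L, p x = uO → c • x = ρ +ᵥ x) ∧
    (∀ x : L, q (p x) = zs → p x ≠ uO → c • x = x)

/-! ### Algebra part -/

/-- The constants: `a^2 = -2`, `ω` a primitive cube root of one, `ζ` a primitive 13th root of
one. -/
structure Cst (F : Type*) [Field F] where
  a : F
  ω : F
  ζ : F
  ha : a ^ 2 = -2
  hω : ω ^ 2 + ω + 1 = 0
  hζ : ζ ^ 13 = 1
  hζ1 : ζ ≠ 1

namespace Cst

variable {F : Type*} [Field F] (c : Cst F)

/-- image of the constants under a ring homomorphism of fields -/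
def map {F' : Type*} [Field F'] (φ : F →+* F') : Cst F' where
  a := φ c.a
  ω := φ c.ω
  ζ := φ c.ζ
  ha := by rw [← map_pow, c.ha, map_neg, map_ofNat]
  hω := by rw [← map_pow, ← map_add, ← map_one φ, ← map_add, c.hω, map_zero]
  hζ := by rw [← map_pow, c.hζ, map_one]
  hζ1 := fun h => c.hζ1 (φ.injective (by rw [h, map_one]))

/-- the root of the tower: `m^2 + 2 a m + 1 = 0` -/
def m : F := 2 * c.ω + 1 - c.a

/-- `P(w) = w (w^3 - 2a)/(1 - 2 a w^3)` -/
def P (w : F) : F := w * (w ^ 3 - 2 * c.a) / (1 - 2 * c.a * w ^ 3)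

/-- `s0(w) = -(w+a)/(a w + 1)` -/
def s0 (w : F) : F := -(w + c.a) / (c.a * w + 1)

/-- `X(w) = -w (w+a)/(a w + 1) = w * s0 w` -/
def X (w : F) : F := -(w * (w + c.a)) / (c.a * w + 1)

/-- `R1(x) = x (x+2)/(2 x+1)`, so that `P = R1 ∘ X` -/
def R1 (x : F) : F := x * (x + 2) / (2 * x + 1)

/-- `D(z) = z^2 - z + 1`; `(X(w) - P(w) + 1)^2 = D(P(w))` -/
def D (z : F) : F := z ^ 2 - z + 1

/-- the action of the Klein four group -/
def S (v : V4) (w : F) : F :=
  if v = (0, 0) then w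
  else if v = (1, 0) then c.s0 w
  else if v = (0, 1) then c.ω * c.s0 (c.ω ^ 2 * w)
  else c.ω ^ 2 * c.s0 (c.ω * w)

/-- the nodes of `M_j` -/
def MS : ℕ → Set F
  | 0 => {c.m}
  | j + 1 => {w | 1 - 2 * c.a * w ^ 3 ≠ 0 ∧ (c.P w) ^ 13 ∈ MS j}

/-- the nodes of `L_j` -/
def LS (j : ℕ) : Set F := {z | z ^ 13 ∈ c.MS j}

/-- `κ^n`, `κ(w) = ω/w` -/
def kap (n : ℕ) (w : F) : F := if Even n then w else c.ω / w

/-- `S_n = M_n ∪ M_n⁻¹` -/
def SS (n : ℕ) : Set F := {v | v ∈ c.MS n ∨ v⁻¹ ∈ c.MS n}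

/-- `N_n = X(κ^n S_n)` (to be shown equal to `f^{-n}(1)`) -/
def NS (n : ℕ) : Set F := {x | ∃ v ∈ c.SS n, x = c.X (c.kap n v)}

end Cst

end Pool.Agent.Arb
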