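import Pool.Agent.Lib.MP_07117b_nt_h64.LocDefs
import Pool.Agent.Lib.MP_07117b_nt_h2.Alg
import Pool.Agent.Lib.MP_07117b_nt_h11.LocRoots
import Pool.Agent.Lib.MP_07117b_nt_h62.Roots4

/-!
Row L4 of the 3-adic local part: nodes `z0` for which some `b` in `B` has label exactly `s0`
(resp. `s1`) at `z0` and acts trivially on the rest of the block.
-/

namespace Pool.Agent.Arb

section
variable {Ω : Type*} [NormedField Ω] [IsAlgClosed Ω] [CharZero Ω] {c : Cst Ω}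
  {B : Subgroup (Ω ≃+* Ω)}

namespace L4

theorem w3 (c : Cst Ω) : c.ω ^ 3 = 1 := by
  have h := c.hω
  linear_combination (c.ω - 1) * h

theorem ultra_eq (h : Loc3 c B) {x y : Ω} (hxy : ‖x‖ < ‖y‖) : ‖x + y‖ = ‖y‖ := by
  apply le_antisymm
  · exact (h.ultra x y).trans (max_le hxy.le le_rfl)
  · have h1 := h.ultra (x + y) (-x)
    have h2 : x + y + -x = y := by ring
    rw [h2, norm_neg] at h1
    rcases le_max_iff.mp h1 with h3 | h3
    · exact h3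
    · exact absurd h3 (not_le.mpr hxy)

theorem mem_MS_succ {j : ℕ} {w z : Ω} (hw : c.P w = z) (hz : z ≠ 0) (hM : z ^ 13 ∈ c.MS j) :
    w ∈ c.MS (j + 1) := by
  refine ⟨?_, by rw [hw]; exact hM⟩
  intro h0
  apply hz
  rw [← hw, Cst.P, h0, div_zero]

/-- `H`-type nodes exist in every level -/
theorem exists_HT (h : Loc3 c B) (j : ℕ) : ∃ u ∈ c.MS j, HT B u := by
  induction j with
  | zero => exact ⟨c.m, rfl, h.norms.2.2.2.2.2.2.2.2.2.2.2.2.1⟩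
  | succ j ih =>
    obtain ⟨u, huM, hu⟩ := ih
    obtain ⟨z0, hz0, hz01, hfix, hGT, -⟩ := h.roots13 hu
    have hz0n : z0 ≠ 0 := by
      rintro rfl
      rw [zero_add, norm_one] at hz01
      exact lt_irrefl _ hz01
    have h1 : (c.ζ * z0) ^ 13 = u := by rw [mul_pow, c.hζ, one_mul, hz0]
    have hne : c.ζ * z0 ≠ z0 := by
      intro h2
      apply c.hζ1
      exact mul_right_cancel₀ hz0n (by rw [h2, one_mul])
    have hG := hGT _ h1 hne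
    obtain ⟨uO, v, hP, -, -, hf, hd⟩ := h.roots4 hG
    have hPv : c.P (v 0) = c.ζ * z0 := (hP (v 0)).mpr (Or.inr ⟨0, rfl⟩)
    have hne0 : c.ζ * z0 ≠ 0 := by
      intro h2
      have := hG.2.1
      rw [h2, norm_zero] at this
      exact zero_ne_one this
    refine ⟨v 0, mem_MS_succ hPv hne0 (by rw [h1]; exact huM), hf 0, ?_⟩
    have := hd 0
    simp only [Fin.val_zero, pow_zero] at this
    rw [this]
    norm_num

/-- children of `G`-type nodes near `-ω^i` -/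
theorem exists_child (h : Loc3 c B) (j : ℕ) (i : Fin 3) :
    ∃ u ∈ c.MS (j + 1), HT B u ∧ ‖u + c.ω ^ (i : ℕ)‖ = 1 / 3 := by
  obtain ⟨u, huM, hu⟩ := exists_HT h j
  obtain ⟨z0, hz0, hz01, hfix, hGT, -⟩ := h.roots13 hu
  have hz0n : z0 ≠ 0 := by
    rintro rfl
    rw [zero_add, norm_one] at hz01
    exact lt_irrefl _ hz01
  have h1 : (c.ζ * z0) ^ 13 = u := by rw [mul_pow, c.hζ, one_mul, hz0]
  have hne : c.ζ * z0 ≠ z0 := by
    intro h2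
    apply c.hζ1
    exact mul_right_cancel₀ hz0n (by rw [h2, one_mul])
  have hG := hGT _ h1 hne
  obtain ⟨uO, v, hP, -, -, hf, hd⟩ := h.roots4 hG
  have hPv : c.P (v i) = c.ζ * z0 := (hP (v i)).mpr (Or.inr ⟨i, rfl⟩)
  have hne0 : c.ζ * z0 ≠ 0 := by
    intro h2
    have := hG.2.1
    rw [h2, norm_zero] at this
    exact zero_ne_one this
  refine ⟨v i, mem_MS_succ hPv hne0 (by rw [h1]; exact huM), ⟨hf i, ?_⟩, hd i⟩
  have hn := h.norms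
  have hω1 : ‖1 - c.ω‖ < 1 := by
    have h3 := hn.2.2.2.2.2.2.2.2.1
    nlinarith [norm_nonneg (1 - c.ω)]
  have hω2 : ‖1 - c.ω ^ 2‖ < 1 := by
    have h3 := hn.2.2.2.2.2.2.2.2.2.1
    nlinarith [norm_nonneg (1 - c.ω ^ 2)]
  have hi : ‖1 - c.ω ^ (i : ℕ)‖ < 1 := by
    fin_cases i
    · simp
    · simpa using hω1
    · simpa using hω2
  have h4 : v i + 1 = (v i + c.ω ^ (i : ℕ)) + (1 - c.ω ^ (i : ℕ)) := by ring
  rw [h4]
  refine (h.ultra _ _).trans_lt (max_lt ?_ hi)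
  rw [hd i]
  norm_num

/-- the factorisation of `D` -/
theorem D_fac (c : Cst Ω) (k : ℕ) (z : Ω) : Cst.D (c.ω ^ (2 * k) * z) =
    (c.ω ^ (2 * k)) ^ 2 * ((z + c.ω ^ (k + 1)) * (z + c.ω ^ (k + 2))) := by
  have h3 := w3 c
  have h1 : c.ω ^ (2 * k) * c.ω ^ (k + 1) = c.ω := by
    rw [← pow_add, show 2 * k + (k + 1) = 3 * k + 1 by ring, pow_add, pow_mul, h3, one_pow,
      one_mul, pow_one]
  have h2 : c.ω ^ (2 * k) * c.ω ^ (k + 2) = c.ω ^ 2 := by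
    rw [← pow_add, show 2 * k + (k + 2) = 3 * k + 2 by ring, pow_add, pow_mul, h3, one_pow,
      one_mul]
  have h4 : (c.ω ^ (2 * k)) ^ 2 * ((z + c.ω ^ (k + 1)) * (z + c.ω ^ (k + 2))) =
      (c.ω ^ (2 * k) * z + c.ω ^ (2 * k) * c.ω ^ (k + 1)) *
        (c.ω ^ (2 * k) * z + c.ω ^ (2 * k) * c.ω ^ (k + 2)) := by ring
  rw [h4, h1, h2, Cst.D]
  have h := c.hω
  linear_combination (-(c.ω ^ (2 * k) * z)) * h - h3

theorem norm_D (h : Loc3 c B) (k : ℕ) (z : Ω) : ‖Cst.D (c.ω ^ (2 * k) * z)‖ =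
    ‖z + c.ω ^ (k + 1)‖ * ‖z + c.ω ^ (k + 2)‖ := by
  rw [D_fac, norm_mul, norm_mul, norm_pow, norm_pow, h.norms.2.2.1, one_pow, one_pow, one_mul]

theorem b_pow (h : Loc3 c B) {b : Ω ≃+* Ω} (hb : b ∈ B) (n : ℕ) (w : Ω) :
    b (c.ω ^ n * w) = c.ω ^ n * b w := by
  rw [map_mul, map_pow, h.fω b hb]

theorem P_pow (c : Cst Ω) (n : ℕ) (w : Ω) : c.P (c.ω ^ n * w) = c.ω ^ n * c.P w := by
  induction n with
  | zero => simp
  | succ n ih => rw [pow_succ', mul_assoc, Cst.P_ω, ih, mul_assoc]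

theorem den_pow (c : Cst Ω) (n : ℕ) (w : Ω) :
    1 - 2 * c.a * (c.ω ^ n * w) ^ 3 = 1 - 2 * c.a * w ^ 3 := by
  rw [mul_pow, ← pow_mul, mul_comm n 3, pow_mul, w3, one_pow, one_mul]

/-- some `b` moves `X(ω^(2k) w)` if `D(ω^(2k) z0)` has norm `3^(-3/2)` -/
theorem flip (h : Loc3 c B) {z0 w0 : Ω} (hz0 : ∀ b ∈ B, b z0 = z0) (hw0 : c.P w0 = z0)
    (hden : 1 - 2 * c.a * w0 ^ 3 ≠ 0) (k : ℕ)
    (hk : ‖Cst.D (c.ω ^ (2 * k) * z0)‖ ^ 2 = 1 / 27) :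
    ∃ b ∈ B, b (c.X (c.ω ^ (2 * k) * w0)) ≠ c.X (c.ω ^ (2 * k) * w0) := by
  by_contra hcon
  push Not at hcon
  set r : Ω := c.X (c.ω ^ (2 * k) * w0) - c.P (c.ω ^ (2 * k) * w0) + 1 with hr
  have hden' : 1 - 2 * c.a * (c.ω ^ (2 * k) * w0) ^ 3 ≠ 0 := by rw [den_pow]; exact hden
  have hsq : r ^ 2 = Cst.D (c.ω ^ (2 * k) * z0) := by
    rw [hr, Cst.X_sq hden', P_pow, hw0]
  have hfix : ∀ b ∈ B, b r = r := by
    intro b hb
    rw [hr, map_add, map_sub, map_one, hcon b hb, P_pow, hw0, b_pow h hb, hz0 b hb]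
  have hr0 : r ≠ 0 := by
    intro h0
    rw [← hsq, h0] at hk
    norm_num at hk
  obtain ⟨n, hn⟩ := h.val r hr0 hfix
  rw [← hsq, norm_pow] at hk
  have h5 : ((3 : ℝ) ^ n) ^ 2 = (3 : ℝ) ^ (-3 : ℤ) := by
    rw [← hn, hk]
    norm_num
  rw [← zpow_natCast, ← zpow_mul] at h5
  have h6 := zpow_right_injective₀ (by norm_num : (0 : ℝ) < 3) (by norm_num) h5
  push_cast at h6
  omega

/-- the label of `b` is not `s_k` or `0` if `b` moves `X(ω^(2k) w)` -/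
theorem lab_ne (h : Loc3 c B) {w0 : Ω} (hden : 1 - 2 * c.a * w0 ^ 3 ≠ 0) {b : Ω ≃+* Ω}
    (hb : b ∈ B) {v : V4} (hv : b w0 = c.S v w0) (k : ℕ)
    (hk : b (c.X (c.ω ^ (2 * k) * w0)) ≠ c.X (c.ω ^ (2 * k) * w0)) :
    v ≠ 0 ∧ (k = 0 → v ≠ (1, 0)) ∧ (k = 1 → v ≠ (0, 1)) ∧ (k = 2 → v ≠ (1, 1)) := by
  have h3 := w3 c
  rw [Cst.b_X b (h.fa b hb), b_pow h hb, hv] at hk
  refine ⟨?_, ?_, ?_, ?_⟩
  · rintro rfl
    rw [Cst.S_zero] at hk
    exact hk rfl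
  · rintro rfl rfl
    apply hk
    have : c.S (1, 0) w0 = c.s0 w0 := by
      rw [Cst.S, if_neg (by decide), if_pos rfl]
    rw [this]
    simp only [mul_zero, pow_zero, one_mul]
    exact Cst.X_s0 hden
  · rintro rfl rfl
    apply hk
    have : c.S (0, 1) w0 = c.ω * c.s0 (c.ω ^ 2 * w0) := by
      rw [Cst.S, if_neg (by decide), if_neg (by decide), if_pos rfl]
    rw [this, mul_one, ← mul_assoc, ← pow_succ, h3, one_mul]
    exact Cst.X_s0 (by rw [den_pow]; exact hden)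
  · rintro rfl rfl
    apply hk
    have : c.S (1, 1) w0 = c.ω ^ 2 * c.s0 (c.ω * w0) := by
      rw [Cst.S, if_neg (by decide), if_neg (by decide), if_neg (by decide)]
    have h4 : c.ω ^ (2 * 2) = c.ω := by
      linear_combination c.ω * h3
    rw [this, h4, ← mul_assoc, ← pow_succ', h3, one_mul]
    refine Cst.X_s0 ?_
    have := den_pow c 1 w0
    rw [pow_one] at this
    rw [this]
    exact hden

/-- the labels form a set closed under addition -/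
theorem lab_mul (h : Loc3 c B) {w0 : Ω} (hg : c.Good w0) {b b' : Ω ≃+* Ω}
    (hb : b ∈ B) {v v' : V4} (hv : b w0 = c.S v w0) (hv' : b' w0 = c.S v' w0) :
    (b * b') w0 = c.S (v' + v) w0 := by
  have h1 : (b * b') w0 = b (b' w0) := rfl
  rw [h1, hv', Cst.b_S b (h.fa b hb) (h.fω b hb), hv, ← hg.S_add]

theorem V4_cases (v : V4) : v = 0 ∨ v = (1, 0) ∨ v = (0, 1) ∨ v = (1, 1) := by
  revert v
  decide

/-- the core of the argument -/
theorem exists_lab (h : Loc3 c B) {z0 w0 : Ω} (hz0 : ∀ b ∈ B, b z0 = z0) (hw0 : c.P w0 = z0)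
    (hg : c.Good w0) (s : V4)
    (hs : (s = (1, 0) ∧ ‖Cst.D (c.ω ^ (2 * 1) * z0)‖ ^ 2 = 1 / 27 ∧
        ‖Cst.D (c.ω ^ (2 * 2) * z0)‖ ^ 2 = 1 / 27) ∨
      (s = (0, 1) ∧ ‖Cst.D (c.ω ^ (2 * 0) * z0)‖ ^ 2 = 1 / 27 ∧
        ‖Cst.D (c.ω ^ (2 * 2) * z0)‖ ^ 2 = 1 / 27)) :
    ∃ b ∈ B, b w0 = c.S s w0 := by
  have hlab : ∀ b ∈ B, ∃ v, b w0 = c.S v w0 := by
    intro b hb
    apply hg.trans
    rw [← Cst.b_P b (h.fa b hb), hw0, hz0 b hb]
  rcases hs with ⟨rfl, h1, h2⟩ | ⟨rfl, h1, h2⟩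
  · obtain ⟨b1, hb1, hm1⟩ := flip h hz0 hw0 hg.1 1 h1
    obtain ⟨b2, hb2, hm2⟩ := flip h hz0 hw0 hg.1 2 h2
    obtain ⟨v1, hv1⟩ := hlab b1 hb1
    obtain ⟨v2, hv2⟩ := hlab b2 hb2
    have l1 := lab_ne h hg.1 hb1 hv1 1 hm1
    have l2 := lab_ne h hg.1 hb2 hv2 2 hm2
    rcases V4_cases v1 with e | e | e | e
    · exact absurd e l1.1
    · exact ⟨b1, hb1, by rw [hv1, e]⟩
    · exact absurd e (l1.2.2.1 rfl)
    · rcases V4_cases v2 with e' | e' | e' | e'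
      · exact absurd e' l2.1
      · exact ⟨b2, hb2, by rw [hv2, e']⟩
      · refine ⟨b1 * b2, B.mul_mem hb1 hb2, ?_⟩
        rw [lab_mul h hg hb1 hv1 hv2, e, e']
        rfl
      · exact absurd e' (l2.2.2.2 rfl)
  · obtain ⟨b1, hb1, hm1⟩ := flip h hz0 hw0 hg.1 0 h1
    obtain ⟨b2, hb2, hm2⟩ := flip h hz0 hw0 hg.1 2 h2
    obtain ⟨v1, hv1⟩ := hlab b1 hb1
    obtain ⟨v2, hv2⟩ := hlab b2 hb2
    have l1 := lab_ne h hg.1 hb1 hv1 0 hm1
    have l2 := lab_ne h hg.1 hb2 hv2 2 hm2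
    rcases V4_cases v1 with e | e | e | e
    · exact absurd e l1.1
    · exact absurd e (l1.2.1 rfl)
    · exact ⟨b1, hb1, by rw [hv1, e]⟩
    · rcases V4_cases v2 with e' | e' | e' | e'
      · exact absurd e' l2.1
      · refine ⟨b1 * b2, B.mul_mem hb1 hb2, ?_⟩
        rw [lab_mul h hg hb1 hv1 hv2, e, e']
        rfl
      · exact ⟨b2, hb2, by rw [hv2, e']⟩
      · exact absurd e' (l2.2.2.2 rfl)

/-- if `‖z0 + ω^i‖ = 1/3` then the distances to the other two points have square `1/3` -/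
theorem other (h : Loc3 c B) {x y z : Ω} (hi : ‖z + x‖ = 1 / 3) (hxy : ‖y - x‖ ^ 2 = 1 / 3) :
    ‖z + y‖ ^ 2 = 1 / 3 := by
  have h1 : z + y = (z + x) + (y - x) := by ring
  rw [h1, ultra_eq h, hxy]
  rw [hi]
  nlinarith [norm_nonneg (y - x)]

end L4

open L4 in
/-- row L4 -/
theorem Loc3.locP (h : Loc3 c B) (j : ℕ) (s : V4) (hs : s = (1, 0) ∨ s = (0, 1)) :
    ∃ z0 ∈ c.LS (j + 1), ∃ b ∈ B, (∀ z : Ω, z ^ 13 = z0 ^ 13 → b z = z) ∧
      (∀ w : Ω, c.P w = z0 → b w = c.S s w) ∧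
      (∀ w : Ω, (c.P w) ^ 13 = z0 ^ 13 → c.P w ≠ z0 → b w = w) := by
  have hn := h.norms
  have n1 := hn.2.2.2.2.2.2.2.2.1
  have n2 := hn.2.2.2.2.2.2.2.2.2.1
  have n3 := hn.2.2.2.2.2.2.2.2.2.2.1
  have e3 := w3 c
  obtain ⟨i, hi⟩ : ∃ i : Fin 3, (s = (1, 0) ∧ i = 0) ∨ (s = (0, 1) ∧ i = 1) := by
    rcases hs with rfl | rfl
    · exact ⟨0, Or.inl ⟨rfl, rfl⟩⟩
    · exact ⟨1, Or.inr ⟨rfl, rfl⟩⟩
  obtain ⟨u, huM, hu, hui⟩ := exists_child h j i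
  obtain ⟨z0, hz0, hz01, hfix, hGT, hdist⟩ := h.roots13 hu
  have hL : z0 ∈ c.LS (j + 1) := by
    show z0 ^ 13 ∈ c.MS (j + 1)
    rw [hz0]; exact huM
  have hz0f := hfix z0 hz0
  obtain ⟨w0, hden, hw0⟩ := Cst.exists_P (c := c) z0
  obtain ⟨hz0n, hz06⟩ := Cst.LS_ne hL
  have hg : c.Good w0 := ⟨hden, by rw [hw0]; exact hz0n, by rw [hw0]; exact hz06⟩
  have hzi : ‖z0 + c.ω ^ (i : ℕ)‖ = 1 / 3 := by rw [hdist, hui]
  obtain ⟨b, hb, hbw⟩ : ∃ b ∈ B, b w0 = c.S s w0 := by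
    apply exists_lab h hz0f hw0 hg
    rcases hi with ⟨rfl, rfl⟩ | ⟨rfl, rfl⟩
    · left
      simp only [Fin.val_zero, pow_zero] at hzi
      have d1 : ‖z0 + c.ω‖ ^ 2 = 1 / 3 := other h hzi (by rw [norm_sub_rev]; exact n1)
      have d2 : ‖z0 + c.ω ^ 2‖ ^ 2 = 1 / 3 := other h hzi (by rw [norm_sub_rev]; exact n2)
      refine ⟨rfl, ?_, ?_⟩
      · rw [norm_D h, mul_pow]
        norm_num
        rw [d2, e3, hzi]
        norm_num
      · rw [norm_D h, mul_pow]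
        norm_num
        rw [e3, show c.ω ^ 4 = c.ω by linear_combination c.ω * e3, d1, hzi]
        norm_num
    · right
      simp only [Fin.val_one, pow_one] at hzi
      have d1 : ‖z0 + 1‖ ^ 2 = 1 / 3 := other h hzi n1
      have d2 : ‖z0 + c.ω ^ 2‖ ^ 2 = 1 / 3 := other h hzi (by rw [norm_sub_rev]; exact n3)
      refine ⟨rfl, ?_, ?_⟩
      · rw [norm_D h, mul_pow]
        norm_num
        rw [d2, hzi]
        norm_num
      · rw [norm_D h, mul_pow]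
        norm_num
        rw [e3, show c.ω ^ 4 = c.ω by linear_combination c.ω * e3, d1, hzi]
        norm_num
  refine ⟨z0, hL, b, hb, ?_, ?_, ?_⟩
  · intro z hz
    exact hfix z (by rw [hz, hz0]) b hb
  · intro w hw
    obtain ⟨v, rfl⟩ := hg.trans (hw.trans hw0.symm)
    rw [Cst.b_S b (h.fa b hb) (h.fω b hb), hbw, ← hg.S_add, ← hg.S_add, add_comm]
  · intro w hw hne
    have hG := hGT (c.P w) (by rw [hw, hz0]) hne
    obtain ⟨uO, v, hP, -, hO, hf, -⟩ := h.roots4 hG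
    rcases (hP w).mp rfl with rfl | ⟨i, rfl⟩
    · exact hO b hb
    · exact hf i b hb

end

end Pool.Agent.Arb
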