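import Pool.Agent.Lib.MP_07117b_nt_h64.Base
import Pool.Agent.Lib.MP_07117b_nt_h25.Ell
import Pool.Agent.Lib.MP_07117b_nt_h25.ExK
import Pool.Agent.Lib.MP_07117b_nt_h29.Deg1
import Pool.Agent.Lib.MP_07117b_nt_h62.D2
import Pool.Agent.Lib.MP_07117b_nt_h62.D4
import Pool.Agent.Lib.MP_07117b_nt_h63.DegOdd
import Pool.Agent.Lib.MP_07117b_nt_h41.PA2
import Pool.Agent.Lib.MP_07117b_nt_h16.Tower
import Pool.Agent.Lib.MP_07117b_nt_h16.CardGam
import Pool.Agent.Lib.MP_07117b_nt_h62.FinalStep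

/-!
The final assembly.
-/

namespace Pool.Agent.Arb

open Cst Polynomial

/-- The number of label vectors at level `j + 1`. -/
theorem card_level {K : Type*} [Field K] [CharZero K] {Ω : Type*} [NormedField Ω] [IsAlgClosed Ω]
    [CharZero Ω] (c0 : Cst K) (ι : K →+* Ω) (B : Subgroup (Ω ≃+* Ω)) (h : Loc3 (c0.map ι) B)
    (hB : ∀ b ∈ B, ∀ k, b (ι k) = ι k)
    (h13 : ∀ y : K, y ^ 13 ≠ c0.m) (hD0 : ∀ y : K, y ^ 2 ≠ D c0.m)
    (hD2 : ∀ y : K, y ^ 2 ≠ D (c0.ω * c0.m)) (j : ℕ) :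
    4 ^ (12 * Nat.card ((c0.map (algebraMap K (AlgebraicClosure K))).MS (j + 1))) ≤
      Nat.card (Gam (AlgebraicClosure K ≃ₐ[K] AlgebraicClosure K) (A := V4)
        (qm (c0.map (algebraMap K (AlgebraicClosure K))) (j + 1))) := by
  haveI : CharZero (AlgebraicClosure K) := charZero_of_injective_algebraMap
    (algebraMap K (AlgebraicClosure K)).injective
  obtain ⟨hT, hA, h1, h2⟩ := base' c0 h13 hD0 hD2 (root6_of_loc c0 ι B h hB)
  refine card_gam (pm (c0.map (algebraMap K (AlgebraicClosure K))) (j + 1))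
    (qm (c0.map (algebraMap K (AlgebraicClosure K))) (j + 1)) (fib_p c0 (j + 1))
    (fib_q c0 (j + 1)) ?_
  exact tower (G := AlgebraicClosure K ≃ₐ[K] AlgebraicClosure K)
    (fun j => (c0.map (algebraMap K (AlgebraicClosure K))).MS j)
    (fun j => (c0.map (algebraMap K (AlgebraicClosure K))).LS j)
    (fun j => pm (c0.map (algebraMap K (AlgebraicClosure K))) j)
    (fun j => qm (c0.map (algebraMap K (AlgebraicClosure K))) j)
    (fun j => fib_p c0 j) (fun j => fib_q c0 j) hT hA h1 h2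
    (fun j => hypE_of_loc c0 ι B h hB j) (fun j => hypP_of_loc c0 ι B h hB j) j

/-- The final theorem. -/
theorem final : Final := by
  haveI : Fact (Nat.Prime 3) := ⟨by norm_num⟩
  haveI : Fact (Nat.Prime 1249) := ⟨by norm_num⟩
  obtain ⟨c, B, hloc⟩ := exists_loc3
  obtain ⟨K, iK, iN, c0, ι, h, hB, ⟨φ⟩⟩ := exists_K c B hloc
  obtain ⟨h13, hD0, hD2⟩ := ell1249 c0 φ
  haveI : CharZero K := inferInstance
  obtain ⟨Bd, hBd⟩ := deg_general c0
  refine final_of_degrees K c0.pp c0.qq ((1 : K) : OnePoint K) (coprime_pq c0) (natDegree_pq c0)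
    (fun n => Module.finrank K
      (IntermediateField.adjoin K ((c0.map (algebraMap K (AlgebraicClosure K))).NS n)))
    (fun n => by rw [level_eq]) (fun n => deg_pos c0 n) (deg_zero c0) Bd hBd
    (fun n hn => deg_odd c0 hn) ?_
  intro n hn hn1
  obtain ⟨j, rfl⟩ : ∃ j, n = j + 1 := ⟨n - 1, by omega⟩
  exact deg_even c0 hn (card_level c0 ι B h hB h13 hD0 hD2 j)

end Pool.Agent.Arb
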