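import Pool.Agent.Lib.MP_07117b_nt_h34.Act
import Pool.Agent.Lib.MP_07117b_nt_h63.LocE
import Pool.Agent.Lib.MP_07117b_nt_h64.L4
import Pool.Agent.Lib.MP_07117b_nt_h53.Loc6

/-!
# MP_07117b_nt: transfer from the local field
-/

set_option autoImplicit false

namespace Pool.Agent.Arb

open Cst

/-- row T (T1) -/
theorem exists_lift {K Ω : Type*} [Field K] [Field Ω] [IsAlgClosed Ω] (ι : K →+* Ω) :
    ∃ φ : AlgebraicClosure K →+* Ω, (∀ k : K, φ (algebraMap K (AlgebraicClosure K) k) = ι k) ∧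
      ∀ b : Ω ≃+* Ω, (∀ k, b (ι k) = ι k) →
        ∃ g : AlgebraicClosure K ≃ₐ[K] AlgebraicClosure K, ∀ x, φ (g x) = b (φ x) := by
  let _ : Algebra K Ω := ι.toAlgebra
  let φ : AlgebraicClosure K →ₐ[K] Ω := IsAlgClosed.lift
  let _ : Algebra (AlgebraicClosure K) Ω := φ.toRingHom.toAlgebra
  have : IsScalarTower K (AlgebraicClosure K) Ω := IsScalarTower.of_algebraMap_eq fun k =>
    (φ.commutes k).symm
  refine ⟨φ.toRingHom, fun k => φ.commutes k, fun b hb => ?_⟩
  let χ : Ω ≃ₐ[K] Ω := AlgEquiv.ofRingEquiv (f := b) hb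
  exact ⟨χ.restrictNormal (AlgebraicClosure K), fun x =>
    AlgEquiv.restrictNormal_commutes χ (AlgebraicClosure K) x⟩

/-- roots of a polynomial over an algebraically closed field -/
theorem root_mem_range {F F' : Type*} [Field F] [IsAlgClosed F] [Field F'] (φ : F →+* F')
    {Q : Polynomial F} (hQ : Q ≠ 0) {x' : F'} (hx : (Q.map φ).eval x' = 0) :
    ∃ x, φ x = x' := by
  have h1 : x' ∈ (Q.map φ).roots := by
    rw [Polynomial.mem_roots']
    exact ⟨(Polynomial.map_ne_zero_iff φ.injective).2 hQ, hx⟩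
  rw [(IsAlgClosed.splits Q).roots_map, Multiset.mem_map] at h1
  obtain ⟨x, -, hx⟩ := h1
  exact ⟨x, hx⟩

/-- row T (T2) -/
theorem MS_map {F F' : Type*} [Field F] [IsAlgClosed F] [CharZero F] [Field F'] (c : Cst F)
    (φ : F →+* F') (j : ℕ) : (c.map φ).MS j = φ '' c.MS j := by
  induction j with
  | zero =>
    show ({(c.map φ).m} : Set F') = φ '' {c.m}
    rw [Set.image_singleton]
    congr 1
    simp only [Cst.m, Cst.map, map_sub, map_add, map_mul, map_one, map_ofNat]
  | succ j ih =>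
    have hden : ∀ w, φ (1 - 2 * c.a * w ^ 3) = 1 - 2 * (c.map φ).a * (φ w) ^ 3 := by
      intro w
      simp only [Cst.map, map_sub, map_mul, map_one, map_ofNat, map_pow]
    ext w'
    constructor
    · rintro ⟨h1, h2⟩
      rw [ih] at h2
      obtain ⟨u, hu, hu'⟩ := h2
      -- the value of P
      obtain ⟨z, hz⟩ : ∃ z, φ z = (c.map φ).P w' := by
        apply root_mem_range φ (Q := Polynomial.X ^ 13 - Polynomial.C u)
          (Polynomial.X_pow_sub_C_ne_zero (by norm_num) u)
        simp only [Polynomial.map_sub, Polynomial.map_pow, Polynomial.map_X, Polynomial.map_C,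
          Polynomial.eval_sub, Polynomial.eval_pow, Polynomial.eval_X, Polynomial.eval_C]
        rw [hu', sub_self]
      obtain ⟨w, hw⟩ : ∃ w, φ w = w' := by
        apply root_mem_range φ (Q := Polynomial.X ^ 4 + (Polynomial.C (2 * c.a * z) *
          Polynomial.X ^ 3 - Polynomial.C (2 * c.a) * Polynomial.X - Polynomial.C z))
        · apply Polynomial.Monic.ne_zero
          apply Polynomial.monic_X_pow_add
          compute_degree
          norm_num
        · simp only [Polynomial.map_sub, Polynomial.map_pow, Polynomial.map_X, Polynomial.map_C,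
            Polynomial.map_add, Polynomial.map_mul, Polynomial.eval_add, Polynomial.eval_mul,
            Polynomial.eval_sub, Polynomial.eval_pow, Polynomial.eval_X, Polynomial.eval_C,
            map_mul, map_ofNat, Polynomial.map_ofNat, Polynomial.eval_ofNat, hz]
          have h3 : (c.map φ).P w' * (1 - 2 * (c.map φ).a * w' ^ 3) =
              w' * (w' ^ 3 - 2 * (c.map φ).a) := by
            unfold Cst.P
            rw [div_mul_cancel₀ _ h1]
          have h4 : (c.map φ).a = φ c.a := rfl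
          rw [h4] at h3
          linear_combination (-1 : F') * h3
      refine ⟨w, ⟨?_, ?_⟩, hw⟩
      · intro h
        apply h1
        rw [← hw, ← hden, h, map_zero]
      · have h3 : φ (c.P w ^ 13) = φ u := by
          rw [map_pow, Cst.map_P, hw, hu']
        rw [φ.injective h3]
        exact hu
    · rintro ⟨w, ⟨h1, h2⟩, rfl⟩
      refine ⟨?_, ?_⟩
      · rw [← hden, Ne, map_eq_zero]
        exact h1
      · rw [ih, ← Cst.map_P, ← map_pow]
        exact ⟨_, h2, rfl⟩

theorem LS_map {F F' : Type*} [Field F] [IsAlgClosed F] [CharZero F] [Field F'] (c : Cst F)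
    (φ : F →+* F') (j : ℕ) : (c.map φ).LS j = φ '' c.LS j := by
  ext z'
  constructor
  · intro h
    have h1 : z' ^ 13 ∈ (c.map φ).MS j := h
    rw [MS_map] at h1
    obtain ⟨u, hu, hu'⟩ := h1
    obtain ⟨z, hz⟩ : ∃ z, φ z = z' := by
      apply root_mem_range φ (Q := Polynomial.X ^ 13 - Polynomial.C u)
        (Polynomial.X_pow_sub_C_ne_zero (by norm_num) u)
      simp only [Polynomial.map_sub, Polynomial.map_pow, Polynomial.map_X, Polynomial.map_C,
        Polynomial.eval_sub, Polynomial.eval_pow, Polynomial.eval_X, Polynomial.eval_C]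
      rw [hu', sub_self]
    refine ⟨z, ?_, hz⟩
    show z ^ 13 ∈ c.MS j
    have h2 : φ (z ^ 13) = φ u := by rw [map_pow, hz, hu']
    rw [φ.injective h2]
    exact hu
  · rintro ⟨z, hz, rfl⟩
    show (φ z) ^ 13 ∈ (c.map φ).MS j
    rw [MS_map, ← map_pow]
    exact ⟨_, hz, rfl⟩

theorem map_map_eq {K F Ω : Type*} [Field K] [Field F] [Field Ω] (c0 : Cst K) (α : K →+* F)
    (φ : F →+* Ω) (ι : K →+* Ω) (h : ∀ k, φ (α k) = ι k) : c0.map ι = (c0.map α).map φ := by
  unfold Cst.map
  congr 1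
  · exact (h _).symm
  · exact (h _).symm
  · exact (h _).symm

/-- a preimage of a node under `P` is a node -/
theorem mem_MS_of_P {F : Type*} [Field F] [CharZero F] (c : Cst F) {j : ℕ} {z w : F}
    (hz : z ∈ c.LS j) (hw : c.P w = z) : w ∈ c.MS (j + 1) := by
  refine ⟨?_, ?_⟩
  · intro h
    apply (Cst.LS_ne hz).1
    rw [← hw]
    unfold Cst.P
    rw [h, div_zero]
  · rw [hw]
    exact hz

section transfer
variable {K : Type*} [Field K] [CharZero K] {Ω : Type*} [NormedField Ω] [IsAlgClosed Ω]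
  [CharZero Ω]

/-- row T (T3); from `Loc3.locE` -/
theorem hypE_of_loc (c0 : Cst K) (ι : K →+* Ω) (B : Subgroup (Ω ≃+* Ω))
    (h : Loc3 (c0.map ι) B) (hB : ∀ b ∈ B, ∀ k, b (ι k) = ι k) (j : ℕ) :
    HypE (AlgebraicClosure K ≃ₐ[K] AlgebraicClosure K)
      (pm (c0.map (algebraMap K (AlgebraicClosure K))) j)
      (qm (c0.map (algebraMap K (AlgebraicClosure K))) j)
      (pm (c0.map (algebraMap K (AlgebraicClosure K))) (j + 1)) := by
  obtain ⟨φ, hφ, hlift⟩ := exists_lift ι
  have hc := map_map_eq c0 (algebraMap K (AlgebraicClosure K)) φ ι hφ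
  have hE := h.locE j
  rw [hc] at hE
  set c := c0.map (algebraMap K (AlgebraicClosure K)) with hcdef
  obtain ⟨zs', hzs', uO', hu', b, hb, h1, h2, ⟨ρ, hρ, h3⟩, h4⟩ := hE
  have huM := mem_MS_of_P (c.map φ) hzs' hu'
  rw [LS_map] at hzs'
  rw [MS_map] at huM
  obtain ⟨zs, hzs, rfl⟩ := hzs'
  obtain ⟨uO, huO, rfl⟩ := huM
  obtain ⟨g, hg⟩ := hlift b (hB b hb)
  have hPu : c.P uO = zs := by
    apply φ.injective
    rw [Cst.map_P, hu']
  refine ⟨⟨zs, hzs⟩, ⟨uO, huO⟩, g, Subtype.ext hPu, ?_, ?_, ⟨ρ, hρ, ?_⟩, ?_⟩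
  · intro z hz
    have hz' : (z : AlgebraicClosure K) ^ 13 = zs ^ 13 := congrArg Subtype.val hz
    apply Subtype.ext
    rw [smul_LS]
    apply φ.injective
    rw [hg]
    apply h1
    rw [← map_pow, hz', map_pow]
  · intro u hu
    have hu2 : c.P (u : AlgebraicClosure K) = zs := congrArg Subtype.val hu
    apply Subtype.ext
    rw [smul_MS]
    apply φ.injective
    rw [hg]
    apply h2
    rw [← Cst.map_P, hu2]
  · intro x hx
    have hx' : (x : AlgebraicClosure K) ^ 13 = uO := congrArg Subtype.val hx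
    apply Subtype.ext
    rw [smul_LS, vadd_LS]
    apply φ.injective
    rw [hg, h3 _ (by rw [← map_pow, hx']), map_mul, map_pow]
    rfl
  · intro x hx hne
    have hx' : c.P ((x : AlgebraicClosure K) ^ 13) = zs := congrArg Subtype.val hx
    apply Subtype.ext
    rw [smul_LS]
    apply φ.injective
    rw [hg]
    apply h4
    · rw [← map_pow, ← Cst.map_P, hx']
    · intro hcon
      apply hne
      apply Subtype.ext
      apply φ.injective
      rw [← hcon, ← map_pow]
      rfl

/-- row T (T3); from `Loc3.locP` -/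
theorem hypP_of_loc (c0 : Cst K) (ι : K →+* Ω) (B : Subgroup (Ω ≃+* Ω))
    (h : Loc3 (c0.map ι) B) (hB : ∀ b ∈ B, ∀ k, b (ι k) = ι k) (j : ℕ) :
    HypP (AlgebraicClosure K ≃ₐ[K] AlgebraicClosure K)
      (pm (c0.map (algebraMap K (AlgebraicClosure K))) (j + 1))
      (qm (c0.map (algebraMap K (AlgebraicClosure K))) (j + 1)) := by
  intro s hs
  obtain ⟨φ, hφ, hlift⟩ := exists_lift ι
  have hc := map_map_eq c0 (algebraMap K (AlgebraicClosure K)) φ ι hφ
  have hE := h.locP j s hs
  rw [hc] at hE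
  set c := c0.map (algebraMap K (AlgebraicClosure K)) with hcdef
  obtain ⟨z0', hz0', b, hb, h1, h2, h3⟩ := hE
  rw [LS_map] at hz0'
  obtain ⟨z0, hz0, rfl⟩ := hz0'
  obtain ⟨g, hg⟩ := hlift b (hB b hb)
  refine ⟨⟨z0, hz0⟩, g, ?_, ?_, ?_⟩
  · intro z hz
    have hz' : (z : AlgebraicClosure K) ^ 13 = z0 ^ 13 := congrArg Subtype.val hz
    apply Subtype.ext
    rw [smul_LS]
    apply φ.injective
    rw [hg]
    apply h1
    rw [← map_pow, hz', map_pow]
  · intro w hw
    have hw2 : c.P (w : AlgebraicClosure K) = z0 := congrArg Subtype.val hw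
    apply Subtype.ext
    rw [smul_MS, vadd_MS]
    apply φ.injective
    rw [hg, h2 _ (by rw [← Cst.map_P, hw2]), Cst.map_S]
  · intro w hw hne
    have hw2 : c.P (w : AlgebraicClosure K) ^ 13 = z0 ^ 13 := congrArg Subtype.val hw
    apply Subtype.ext
    rw [smul_MS]
    apply φ.injective
    rw [hg]
    apply h3
    · rw [← Cst.map_P, ← map_pow, hw2, map_pow]
    · intro hcon
      apply hne
      apply Subtype.ext
      apply φ.injective
      rw [← hcon, ← Cst.map_P]
      rfl

/-- the conclusion of `loc6`, transferred to the algebraic closure of `K` -/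
def Root6 (c0 : Cst K) : Prop :=
  ∃ (z0 : (c0.map (algebraMap K (AlgebraicClosure K))).LS 0)
    (g : AlgebraicClosure K ≃ₐ[K] AlgebraicClosure K),
    (∀ z : (c0.map (algebraMap K (AlgebraicClosure K))).LS 0, g • z = z) ∧
    (∃ v : V4, (v = (1, 0) ∨ v = (1, 1)) ∧
      ∀ w : (c0.map (algebraMap K (AlgebraicClosure K))).MS (0 + 1),
        qm (c0.map (algebraMap K (AlgebraicClosure K))) 0 w = z0 → g • w = v +ᵥ w) ∧
    (∀ w : (c0.map (algebraMap K (AlgebraicClosure K))).MS (0 + 1),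
        qm (c0.map (algebraMap K (AlgebraicClosure K))) 0 w ≠ z0 → g • w = w)

/-- row T (T3); from `Loc3.loc6` -/
theorem root6_of_loc (c0 : Cst K) (ι : K →+* Ω) (B : Subgroup (Ω ≃+* Ω))
    (h : Loc3 (c0.map ι) B) (hB : ∀ b ∈ B, ∀ k, b (ι k) = ι k) : Root6 c0 := by
  unfold Root6
  obtain ⟨φ, hφ, hlift⟩ := exists_lift ι
  have hc := map_map_eq c0 (algebraMap K (AlgebraicClosure K)) φ ι hφ
  have hE := h.loc6
  rw [hc] at hE
  set c := c0.map (algebraMap K (AlgebraicClosure K)) with hcdef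
  obtain ⟨z0', hz0', b, hb, h1, ⟨v, hv, h2⟩, h3⟩ := hE
  rw [LS_map] at hz0'
  obtain ⟨z0, hz0, rfl⟩ := hz0'
  obtain ⟨g, hg⟩ := hlift b (hB b hb)
  have hm : ∀ z, z ∈ c.LS 0 → z ^ 13 = c.m := fun z hz => hz
  refine ⟨⟨z0, hz0⟩, g, ?_, ⟨v, hv, ?_⟩, ?_⟩
  · intro z
    apply Subtype.ext
    rw [smul_LS]
    apply φ.injective
    rw [hg]
    apply h1
    rw [← map_pow, ← map_pow, hm _ z.2, hm _ hz0]
  · intro w hw
    have hw2 : c.P (w : AlgebraicClosure K) = z0 := congrArg Subtype.val hw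
    apply Subtype.ext
    rw [smul_MS, vadd_MS]
    apply φ.injective
    rw [hg, h2 _ (by rw [← Cst.map_P, hw2]), Cst.map_S]
  · intro w hne
    apply Subtype.ext
    rw [smul_MS]
    apply φ.injective
    rw [hg]
    apply h3
    · rw [← Cst.map_P, ← map_pow, ← map_pow, hm _ hz0]
      exact congrArg φ (hm _ w.2.2)
    · intro hcon
      apply hne
      apply Subtype.ext
      apply φ.injective
      rw [← hcon, ← Cst.map_P]
      rfl

end transfer

end Pool.Agent.Arb
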